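import Pool.Agent.H5.LP.C3

/-! # The non-symmetric `L^p` Mahler inequality for joins and free sums of planar bodies and of
polytopes with at most `dim + 2` vertices

For every dimension `n` and every real `p > 0` the inequality of the problem holds for every
convex body in `ℝ^n` which can be built by joins and free sums from convex sets of dimension at
most two and polytopes with at most `dim + 2` vertices. The constructor `few` alone gives all
polytopes with at most `n + 2` vertices. -/

set_option autoImplicit false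

open MeasureTheory Set
open scoped ENNReal

namespace Pool.Agent.H5.Withdrawn.FreeSumsAndJoins

/-- the standard simplex of `ℝ^n` -/
def Del (n : ℕ) : Set (Fin n → ℝ) := {z | (∀ i, 0 ≤ z i) ∧ ∑ i, z i ≤ 1}

/-- the `L^p` Mahler volume `|L| ∫ exp (-h_{p,L}) dy`; here
`exp (-h_{p,L} y) = ((∫_L exp (p ⟨x, y⟩) dx) / |L|) ^ (-1/p)` -/
noncomputable def Mp {n : ℕ} (p : ℝ) (L : Set (Fin n → ℝ)) : ℝ≥0∞ := volume L *
  ∫⁻ y : Fin n → ℝ, ENNReal.ofReal
    (((∫ x in L, Real.exp (p * ∑ i, x i * y i)) / (volume L).toReal) ^ (-(1 / p)))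

/-- `Built C o`: the compact convex set `C` with the marked point `o ∈ C` can be built from convex
sets of dimension at most two (`planar`) and polytopes with at most `dim + 2` vertices (`few`) by
free sums of sets with a common marked point and independent directions (`freeSum`) and by joins
of sets with skew affine hulls (`join`). -/
inductive Built {n : ℕ} : Set (Fin n → ℝ) → (Fin n → ℝ) → Prop
  | planar (C : Set (Fin n → ℝ)) (o : Fin n → ℝ) : IsCompact C → Convex ℝ C → o ∈ C →
      Module.finrank ℝ (vectorSpan ℝ C) ≤ 2 → Built C o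
  | few (S : Finset (Fin n → ℝ)) (o : Fin n → ℝ) :
      o ∈ convexHull ℝ (S : Set (Fin n → ℝ)) →
      S.card ≤ Module.finrank ℝ (vectorSpan ℝ (S : Set (Fin n → ℝ))) + 2 →
      Built (convexHull ℝ (S : Set (Fin n → ℝ))) o
  | freeSum (C D : Set (Fin n → ℝ)) (o : Fin n → ℝ) : Built C o → Built D o →
      Disjoint (vectorSpan ℝ C) (vectorSpan ℝ D) → Built (convexHull ℝ (C ∪ D)) o
  | join (C D : Set (Fin n → ℝ)) (c d o : Fin n → ℝ) : Built C c → Built D d →
      o ∈ segment ℝ c d → Disjoint (vectorSpan ℝ C) (vectorSpan ℝ D) →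
      d - c ∉ vectorSpan ℝ C ⊔ vectorSpan ℝ D → Built (convexHull ℝ (C ∪ D)) o

lemma Built.conv {n : ℕ} {C : Set (Fin n → ℝ)} {o : Fin n → ℝ} (h : Built C o) :
    Pool.Agent.H5.LP.Built C o := by
  induction h with
  | planar C o hC hCv ho hd => exact .planar C o hC hCv ho hd
  | few S o ho hcard => exact .few S o ho hcard
  | freeSum C D o _ _ hd ih1 ih2 => exact .freeSum C D o ih1 ih2 hd
  | join C D c d o _ _ ho hd hu ih1 ih2 => exact .join C D c d o ih1 ih2 ho hd hu

/-- **The `L^p` Mahler inequality for joins and free sums**, in every position. -/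
theorem result (n : ℕ) (p : ℝ) (hp : 0 < p) (K : Set (Fin n → ℝ)) (o : Fin n → ℝ)
    (hK : Built K o) (hi : (interior K).Nonempty) (x : Fin n → ℝ) :
    (⨅ z ∈ Del n, Mp p ((fun w => w - z) '' Del n)) ≤ Mp p ((fun w => w - x) '' K) :=
  Pool.Agent.H5.LP.built_main hp hK.conv hi x

end Pool.Agent.H5.Withdrawn.FreeSumsAndJoins
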