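import Pool.Agent.H5.SM.E4

/-! # The simplex is a strict local minimiser of the `L^p` Mahler volume, with linear stability

For every dimension `n ≥ 2` and every real `p > 0` the inequality of the problem holds, in every
position and with equality only for simplices, for all convex bodies `K` which fill almost all of
a simplex containing them; the deficit is at least linear in the relative volume of the difference
to a circumscribed simplex. -/

set_option autoImplicit false

open MeasureTheory Set
open scoped ENNReal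

namespace Pool.Agent.H5.Withdrawn.SimplexLocalMinimiser

/-- the standard simplex of `ℝ^n` -/
def Del (n : ℕ) : Set (Fin n → ℝ) := {z | (∀ i, 0 ≤ z i) ∧ ∑ i, z i ≤ 1}

/-- the `L^p` Mahler volume `|L| ∫ exp (-h_{p,L}) dy`; here
`exp (-h_{p,L} y) = ((∫_L exp (p ⟨x, y⟩) dx) / |L|) ^ (-1/p)` -/
noncomputable def Mp {n : ℕ} (p : ℝ) (L : Set (Fin n → ℝ)) : ℝ≥0∞ := volume L *
  ∫⁻ y : Fin n → ℝ, ENNReal.ofReal
    (((∫ x in L, Real.exp (p * ∑ i, x i * y i)) / (volume L).toReal) ^ (-(1 / p)))

/-- **Local minimality and stability of the simplex.** Simplices are the images `e '' Del n` of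
the standard simplex under affine automorphisms `e`. -/
theorem result (n : ℕ) (hn : 2 ≤ n) (p : ℝ) (hp : 0 < p) :
    ∃ ε c : ℝ, 0 < ε ∧ 0 < c ∧ ∀ K : Set (Fin n → ℝ), IsCompact K → Convex ℝ K →
      (interior K).Nonempty → ∀ e : (Fin n → ℝ) ≃ᵃ[ℝ] (Fin n → ℝ), K ⊆ e '' Del n →
        volume (e '' Del n) ≤ ENNReal.ofReal (1 + ε) * volume K →
        ∃ e' : (Fin n → ℝ) ≃ᵃ[ℝ] (Fin n → ℝ), K ⊆ e' '' Del n ∧
          volume (e' '' Del n) ≤ volume (e '' Del n) ∧
          (∀ x : Fin n → ℝ, ENNReal.ofReal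
            (1 + c * (1 - (volume K).toReal / (volume (e' '' Del n)).toReal)) *
              (⨅ z ∈ Del n, Mp p ((fun w => w - z) '' Del n)) ≤
                Mp p ((fun w => w - x) '' K)) ∧
          ((∃ x : Fin n → ℝ, Mp p ((fun w => w - x) '' K) ≤
            ⨅ z ∈ Del n, Mp p ((fun w => w - z) '' Del n)) → K = e' '' Del n) := by
  obtain ⟨k, rfl⟩ : ∃ k, n = k + 2 := ⟨n - 2, by omega⟩
  exact Pool.Agent.H5.SM.stability k hp

end Pool.Agent.H5.Withdrawn.SimplexLocalMinimiser
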